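import Pool.Agent.P.MP_44bffd_co.PB.Uni
import Pool.Agent.P.MP_44bffd_co.PB.Mult
import Pool.Agent.P.MP_44bffd_co.PB.Arr
import Pool.Agent.P.MP_44bffd_co.PB.Span
import Pool.Agent.P.MP_44bffd_co.PB.FamA
import Pool.Agent.P.MP_44bffd_co.PB.Fam
import Pool.Agent.P.MP_44bffd_co.PB.Ctrl
import Pool.Agent.P.MP_44bffd_co.PB.Geo
import Pool.Agent.P.MP_44bffd_co.PB.Num
import Pool.Agent.P.MP_44bffd_co.PB.Step
import Pool.Agent.P.MP_44bffd_co.PB.Wgen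
import Pool.Agent.P.MP_44bffd_co.PB.Rec
import Pool.Agent.P.MP_44bffd_co.PB.Abs
import Pool.Agent.P.MP_44bffd_co.PB.Fin
import Pool.Agent.P.MP_44bffd_co.PB.App
import Pool.Agent.P.MP_44bffd_co.PB.Desc
import Pool.Agent.P.MP_44bffd_co.PB.Fun
import Pool.Agent.P.MP_44bffd_co.PB.Part
import Pool.Agent.P.MP_44bffd_co.PB.Lat
import Pool.Agent.P.MP_44bffd_co.PB.Zeta
import Pool.Agent.P.MP_44bffd_co.PB.Cmp
import Pool.Agent.P.MP_44bffd_co.PB.LB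
import Pool.Agent.P.MP_44bffd_co.PB.Euler
import Pool.Agent.P.MP_44bffd_co.PB.SI
import Pool.Agent.P.MP_44bffd_co.PB.Inert
import Pool.Agent.P.MP_44bffd_co.PB.Cls
import Pool.Agent.P.MP_44bffd_co.PB.Herb
import Pool.Agent.P.MP_44bffd_co.PB.URank
import Pool.Agent.P.MP_44bffd_co.PB.Amb
import Pool.Agent.P.MP_44bffd_co.PB.HNF
import Pool.Agent.P.MP_44bffd_co.PB.HNL
import Pool.Agent.P.MP_44bffd_co.PB.Split
import Pool.Agent.P.MP_44bffd_co.PB.Coh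
import Pool.Agent.P.MP_44bffd_co.PB.Nak
import Pool.Agent.P.MP_44bffd_co.PB.Ineq
import Pool.Agent.P.MP_44bffd_co.PB.Coc
import Pool.Agent.P.MP_44bffd_co.PB.Hom
import Pool.Agent.P.MP_44bffd_co.PB.Tr
import Pool.Agent.P.MP_44bffd_co.PB.Lam
import Pool.Agent.P.MP_44bffd_co.PB.KC
import Pool.Agent.P.MP_44bffd_co.PB.AdjF
import Pool.Agent.P.MP_44bffd_co.PB.AdjU
import Pool.Agent.P.MP_44bffd_co.PB.Up
import Pool.Agent.P.MP_44bffd_co.PB.Bas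
import Pool.Agent.P.MP_44bffd_co.PB.Tow
import Pool.Agent.P.MP_44bffd_co.PB.Base
import Pool.Agent.P.MP_44bffd_co.LS.Lot
import Pool.Agent.P.MP_44bffd_co.LS.Link
import Pool.Agent.P.MP_44bffd_co.LS.OneW
import Pool.Agent.P.MP_44bffd_co.LS.Abs
import Pool.Agent.P.MP_44bffd_co.LS.Near
import Pool.Agent.P.MP_44bffd_co.LS.Round
import Pool.Agent.P.MP_44bffd_co.LS.Fin

namespace Pool.Agent.Results.MP_44bffd_co.Poly

open Pool.Agent.P.MP_44bffd_co Pool.Agent.P.MP_44bffd_co.PB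

/-- For every `d ≥ 2` there is a planar point set with at most `d ^ C` points in which every point
has exactly `d` points of the set at distance one. -/
theorem result : ∃ C : ℕ, ∀ d : ℕ, 2 ≤ d →
    ∃ P : Finset (EuclideanSpace ℝ (Fin 2)), P.Nonempty ∧
      (∀ p ∈ P, {q | q ∈ P ∧ dist p q = 1}.ncard = d) ∧ P.card ≤ d ^ C := by
  have hM := p_Mult p_Uni
  have hA := p_Arr hM
  have hR := p_Rec (p_Wgen hA p_Del)
    (p_Step (p_Fam hM p_Span (p_FamA p_Fib)) (p_Pres hA) (p_Num p_Geo p_Ctrl) p_Del)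
  have hF := p_Fin hR p_Abs
    (LS.p_Round LS.p_Lot (LS.p_One LS.p_Link) (LS.p_W LS.p_Link) LS.p_Abs LS.p_Two)
  have hS := p_SI p_Zeta p_Euler (p_LB (p_Cmp p_Fun p_Part p_Lat p_Zeta) p_Zeta)
  have hN := p_HNL p_Desc (p_HNF p_Div (p_Cls p_Div hS p_Inert) (p_URank p_Herb) p_Amb)
  have hG := p_Many (p_GS (p_Cover p_Nak) p_Ineq p_HomLe p_Coc) (p_Coh p_H90 (p_Split p_H90 p_Perm))
  have hU := p_Up p_Desc hN hG p_Hom p_Sign p_Tr (p_Lam p_App p_Odd) (p_KC p_Div) p_AdjF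
    (p_AdjU p_App)
  obtain ⟨c, h1, h2⟩ := p_Base (p_Tow (p_Start p_Bas p_AdjF (p_AdjU p_App)) hU p_Disc) p_CM5
  obtain ⟨C, hC⟩ := hF c h1 h2
  refine ⟨C, fun d hd => ?_⟩
  obtain ⟨V, G, h3, h4⟩ := hC d hd
  obtain ⟨P, h5, h6, h7⟩ := LS.to_plane G h4
  exact ⟨P, h5, h6, h7.trans h3⟩

end Pool.Agent.Results.MP_44bffd_co.Poly
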